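import Mathlib
import Pool.Agent.V11171.LKDefs
import Pool.Agent.V11171.LKEnd

namespace Pool.Agent.Results.MP_40e4cd_al.KroneckerSquares

open Pool.Agent.V11171.LK

/-- There are finite quivers `Q`, `Q'` (two vertices `u`, `w`, ten loops at `w`, and `5`,
respectively `8`, arrows from `u` to `w`) such that the Leavitt path algebras of the Kronecker
squares of `Q` and `Q'` are isomorphic `K`-algebras for every field `K`, while over the field `K`
with three elements the Leavitt path algebras of `Q` and `Q'` are not isomorphic as `K`-algebras,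
not even as rings. -/
theorem result : ∃ Q Q' : Quiv,
    (∀ (K : Type) [Field K], Nonempty (LPA K Q.kron ≃ₐ[K] LPA K Q'.kron)) ∧
    ∃ (K : Type) (_ : Field K),
      ¬ Nonempty (LPA K Q ≃ₐ[K] LPA K Q') ∧ ¬ Nonempty (LPA K Q ≃+* LPA K Q') := by
  refine ⟨Qa 5, Qa 8, fun K _ => kron_iso K, ZMod 3, inferInstance, ?_, no_iso⟩
  rintro ⟨φ⟩
  exact no_iso ⟨φ.toRingEquiv⟩

end Pool.Agent.Results.MP_40e4cd_al.KroneckerSquares
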